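import Pool.Agent.Lib.MP_4fbe7c_an.FC.Iface

/-!
Project FC (MP_4fbe7c_an), module PSI: existence of test functions (helper30).
-/

set_option autoImplicit false

open Set MeasureTheory

namespace Pool.Agent.Lib.MP_4fbe7c_an.FC.H30

open Pool.Agent.Lib.MP_4fbe7c_an.SD

/-- the primitive of a continuous function -/
theorem prim {f : ℝ → ℝ} (hf : Continuous f) (x : ℝ) :
    HasDerivAt (fun x => ∫ t in (0 : ℝ)..x, f t) (f x) x :=
  intervalIntegral.integral_hasDerivAt_right (hf.intervalIntegrable _ _)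
    hf.aestronglyMeasurable.stronglyMeasurableAtFilter hf.continuousAt

theorem prim_cont {f : ℝ → ℝ} (hf : Continuous f) :
    Continuous (fun x => ∫ t in (0 : ℝ)..x, f t) :=
  continuous_iff_continuousAt.2 fun x => (prim hf x).continuousAt

/-- the assembly for a continuous function on the line -/
theorem core {L : ℝ} {g : ℝ → ℝ} (hL : 0 < L) (hg : Continuous g)
    (hne : ∃ x ∈ Icc 0 L, ∃ y ∈ Icc 0 L, g x ≠ g y) :
    ∃ (P q : ℝ) (ψ ψ' ψ'' Ψ Ψ' : ℝ → ℝ), 0 < P ∧ 0 < q ∧ Test L P q g ψ ψ' ψ'' Ψ Ψ' := by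
  -- the mean
  set μ : ℝ := (∫ t in (0 : ℝ)..L, g t) / L with hμ
  set h : ℝ → ℝ := fun x => g x - μ with hh
  have hhc : Continuous h := hg.sub continuous_const
  set Q : ℝ → ℝ := fun x => ∫ t in (0 : ℝ)..x, h t with hQ
  have hQc : Continuous Q := prim_cont hhc
  have hQd : ∀ x, HasDerivAt Q (h x) x := prim hhc
  set S : ℝ → ℝ := fun x => ∫ t in (0 : ℝ)..x, Q t with hS
  have hSc : Continuous S := prim_cont hQc
  have hSd : ∀ x, HasDerivAt S (Q x) x := prim hQc
  set c : ℝ := (∫ t in (0 : ℝ)..L, S t) / L with hc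
  set ψ : ℝ → ℝ := fun x => c - S x with hψ
  have hψc : Continuous ψ := continuous_const.sub hSc
  have hψd : ∀ x, HasDerivAt ψ (-Q x) x := fun x => by
    simpa using (hSd x).const_sub c
  set Ψ' : ℝ → ℝ := fun x => ∫ t in (0 : ℝ)..x, ψ t with hΨ'
  have hΨ'c : Continuous Ψ' := prim_cont hψc
  have hΨ'd : ∀ x, HasDerivAt Ψ' (ψ x) x := prim hψc
  set Ψ : ℝ → ℝ := fun x => ∫ t in (0 : ℝ)..x, Ψ' t with hΨ
  have hΨc : Continuous Ψ := prim_cont hΨ'c
  have hΨd : ∀ x, HasDerivAt Ψ (Ψ' x) x := prim hΨ'c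
  have hQL : Q L = 0 := by
    show ∫ t in (0 : ℝ)..L, (g t - μ) = 0
    rw [intervalIntegral.integral_sub (hg.intervalIntegrable _ _)
      (continuous_const.intervalIntegrable _ _), intervalIntegral.integral_const, smul_eq_mul,
      sub_zero, hμ, mul_div_cancel₀ _ hL.ne', sub_self]
  have hQ0 : Q 0 = 0 := intervalIntegral.integral_same
  have hint : ∫ t in (0 : ℝ)..L, ψ t = 0 := by
    show ∫ t in (0 : ℝ)..L, (c - S t) = 0
    rw [intervalIntegral.integral_sub (continuous_const.intervalIntegrable _ _)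
      (hSc.intervalIntegrable _ _), intervalIntegral.integral_const, smul_eq_mul,
      sub_zero, hc, mul_div_cancel₀ _ hL.ne', sub_self]
  -- the bound
  obtain ⟨P, hP0, hP⟩ : ∃ P : ℝ, 0 < P ∧ ∀ x ∈ Icc 0 L, |ψ x| ≤ P ∧ |-Q x| ≤ P ∧ |Ψ x| ≤ P := by
    have hcont : Continuous fun x => |ψ x| + |-Q x| + |Ψ x| :=
      (hψc.abs.add hQc.neg.abs).add hΨc.abs
    obtain ⟨B, hB⟩ := (isCompact_Icc (a := (0 : ℝ)) (b := L)).bddAbove_image hcont.continuousOn
    have hB' : ∀ x ∈ Icc 0 L, |ψ x| + |-Q x| + |Ψ x| ≤ B := fun x hx => hB ⟨x, hx, rfl⟩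
    refine ⟨B + 1, ?_, fun x hx => ?_⟩
    · have := hB' 0 (left_mem_Icc.2 hL.le)
      have h1 := abs_nonneg (ψ 0)
      have h2 := abs_nonneg (-Q 0)
      have h3 := abs_nonneg (Ψ 0)
      linarith
    · have := hB' x hx
      have h1 := abs_nonneg (ψ x)
      have h2 := abs_nonneg (-Q x)
      have h3 := abs_nonneg (Ψ x)
      exact ⟨by linarith, by linarith, by linarith⟩
  -- the integral
  have hq : ∫ x in (0 : ℝ)..L, g x * ψ x = ∫ x in (0 : ℝ)..L, Q x ^ 2 := by
    have e1 : ∫ x in (0 : ℝ)..L, g x * ψ x = (∫ x in (0 : ℝ)..L, h x * ψ x) := by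
      have e : ∀ x, g x * ψ x = h x * ψ x + μ * ψ x := fun x => by
        show g x * ψ x = (g x - μ) * ψ x + μ * ψ x
        ring
      have i1 : IntervalIntegrable (fun x => h x * ψ x) volume 0 L :=
        (hhc.mul hψc).intervalIntegrable _ _
      have i2 : IntervalIntegrable (fun x => μ * ψ x) volume 0 L :=
        (continuous_const.mul hψc).intervalIntegrable _ _
      rw [intervalIntegral.integral_congr (fun x _ => e x), intervalIntegral.integral_add i1 i2,
        intervalIntegral.integral_const_mul, hint, mul_zero, add_zero]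
    have e2 := intervalIntegral.integral_mul_deriv_eq_deriv_mul (a := 0) (b := L) (u := ψ) (v := Q)
      (u' := fun x => -Q x) (v' := h) (fun x _ => hψd x) (fun x _ => hQd x)
      (hQc.neg.intervalIntegrable _ _) (hhc.intervalIntegrable _ _)
    rw [hQL, hQ0, mul_zero, mul_zero, sub_zero, zero_sub] at e2
    rw [e1]
    have e3 : ∫ x in (0 : ℝ)..L, h x * ψ x = ∫ x in (0 : ℝ)..L, ψ x * h x :=
      intervalIntegral.integral_congr fun x _ => mul_comm _ _
    rw [e3, e2, ← intervalIntegral.integral_neg]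
    refine intervalIntegral.integral_congr fun x _ => ?_
    show -(-Q x * Q x) = Q x ^ 2
    ring
  have hqpos : 0 < ∫ x in (0 : ℝ)..L, Q x ^ 2 := by
    refine intervalIntegral.integral_pos hL (hQc.pow 2).continuousOn (fun x _ => sq_nonneg (Q x)) ?_
    by_contra hcon2
    have hcon : ∀ z ∈ Icc 0 L, Q z = 0 := by
      intro z hz
      by_contra hne0
      exact hcon2 ⟨z, hz, by positivity⟩
    obtain ⟨x, hx, y, hy, hxy⟩ := hne
    have key : ∀ z ∈ Icc 0 L, g z = μ := by
      intro z hz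
      have h1 : HasDerivWithinAt Q (h z) (Icc 0 L) z := (hQd z).hasDerivWithinAt
      have h2 : HasDerivWithinAt Q 0 (Icc 0 L) z :=
        (hasDerivWithinAt_const z (Icc 0 L) (0 : ℝ)).congr (fun w hw => hcon w hw) (hcon z hz)
      have h3 := (uniqueDiffOn_Icc hL z hz).eq_deriv _ h1 h2
      exact sub_eq_zero.1 h3
    exact hxy ((key x hx).trans (key y hy).symm)
  refine ⟨P, ∫ x in (0 : ℝ)..L, Q x ^ 2, ψ, fun x => -Q x, fun x => -h x, Ψ, Ψ', hP0, hqpos, ?_⟩
  exact
    { d1 := fun x _ => (hψd x).hasDerivWithinAt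
      d2 := fun x _ => (hQd x).neg.hasDerivWithinAt
      c2 := hhc.neg.continuousOn
      b0 := by rw [hQ0, neg_zero]
      bL := by rw [hQL, neg_zero]
      D1 := fun x _ => (hΨd x).hasDerivWithinAt
      D2 := fun x _ => (hΨ'd x).hasDerivWithinAt
      B0 := intervalIntegral.integral_same
      BL := hint
      bd := hP
      hq := hq }

/-- PSI -/
theorem psi : PsiStatement := by
  intro L m hL hm hne
  set g : ℝ → ℝ := IccExtend hL.le (fun x : Icc 0 L => m x) with hg
  have hgc : Continuous g := (continuousOn_iff_continuous_restrict.1 hm).Icc_extend'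
  have hgm : ∀ x ∈ Icc 0 L, g x = m x := fun x hx => IccExtend_of_mem hL.le _ hx
  have hne' : ∃ x ∈ Icc 0 L, ∃ y ∈ Icc 0 L, g x ≠ g y := by
    obtain ⟨x, hx, y, hy, hxy⟩ := hne
    exact ⟨x, hx, y, hy, by rw [hgm x hx, hgm y hy]; exact hxy⟩
  obtain ⟨P, q, ψ, ψ', ψ'', Ψ, Ψ', hP, hq, ht⟩ := core hL hgc hne'
  refine ⟨P, q, ψ, ψ', ψ'', Ψ, Ψ', hP, hq, ?_⟩
  exact
    { d1 := ht.d1
      d2 := ht.d2
      c2 := ht.c2
      b0 := ht.b0
      bL := ht.bL
      D1 := ht.D1
      D2 := ht.D2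
      B0 := ht.B0
      BL := ht.BL
      bd := ht.bd
      hq := by
        rw [← ht.hq]
        refine intervalIntegral.integral_congr fun x hx => ?_
        rw [uIcc_of_le hL.le] at hx
        show m x * ψ x = g x * ψ x
        rw [hgm x hx] }

end Pool.Agent.Lib.MP_4fbe7c_an.FC.H30
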